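import Pool.Agent.helper90.IV.Spec

/-!
# iv:GL5 (MP_26dbae_co): a rainbow copy of the power gives the linked subdivision
-/

set_option autoImplicit false

namespace Pool.Agent.helper41.IV

open Pool.Agent.helper23.TH Pool.Agent.KS Pool.Agent.IV

open Classical

theorem bool_flip (a b s : Bool) (h : a ≠ b) : a = s ↔ ¬ b = s := by
  revert a b s
  decide

theorem bool_same (a b s : Bool) (h1 : a ≠ s) (h2 : b ≠ s) : a = b := by
  revert a b s
  decide

theorem prop_a (P Q S : Prop) (a : P) (c : ¬ Q) : ((P ↔ ¬ S) ↔ (Q ↔ S)) := by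
  by_cases h : S
  · simp [a, c, h]
  · simp [a, c, h]

theorem prop_b (P Q S : Prop) (a : Q) (c : ¬ P) : ((P ↔ ¬ S) ↔ (Q ↔ S)) := by
  by_cases h : S
  · simp [a, c, h]
  · simp [a, c, h]

/-- GL5 -/
theorem GL5 : GL5_stmt := by
  intro I _ T hub k hhub hR V X _ A p q α β F hG hW _hNC hcl hends U A' lam hPr hA' hk hRB
  obtain ⟨z, y, hhom, hzinj, hyinj, hzy, hcol⟩ := hRB
  obtain ⟨r0⟩ := hR
  have hj0 : 0 < k := hk
  -- the walk behind an edge of A'
  obtain ⟨v0, hv0F, -, -, -⟩ := hA' _ _ ((hhom ⟨0, hj0⟩).2 r0)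
  -- ends
  set E1 : V → Prop := fun u => ∃ v ∈ F, u = v 1 with hE1
  set E3 : V → Prop := fun u => ∃ v ∈ F, u = v 3 with hE3
  have hw : ∀ v ∈ F, A (v 0) (v 1) ∧ A (v 1) (v 2) ∧ A (v 2) (v 3) ∧ A (v 3) (v 4) := by
    intro v hv
    exact ⟨hW v hv 0, hW v hv 1, hW v hv 2, hW v hv 3⟩
  have p1 : ∀ u, E1 u → α (p u) = 1 ∧ β (q u) = 1 ∧ A (v0 0) u := by
    rintro u ⟨v, hv, rfl⟩
    refine ⟨(hcl v hv 1).1, (hcl v hv 1).2, ?_⟩
    rw [← (hends v hv v0 hv0F).1]
    exact (hw v hv).1
  have p3 : ∀ u, E3 u → α (p u) = 3 ∧ β (q u) = 3 ∧ A (v0 4) u := by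
    rintro u ⟨v, hv, rfl⟩
    refine ⟨(hcl v hv 3).1, (hcl v hv 3).2, ?_⟩
    rw [← (hends v hv v0 hv0F).2]
    exact hG.symm _ _ (hw v hv).2.2.2
  have hnot : ∀ u, E1 u → E3 u → False := by
    intro u h1 h3
    have a := (p1 u h1).1
    have b := (p3 u h3).1
    rw [a] at b
    exact absurd b (by decide)
  have hedge : ∀ u w, A' u w → (E1 u.1 ∧ E3 w.1) ∨ (E3 u.1 ∧ E1 w.1) := by
    intro u w h
    obtain ⟨v, hv, h1, -, -⟩ := hA' u w h
    rcases h1 with ⟨a, b⟩ | ⟨a, b⟩
    · exact Or.inl ⟨⟨v, hv, a⟩, ⟨v, hv, b⟩⟩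
    · exact Or.inr ⟨⟨v, hv, a⟩, ⟨v, hv, b⟩⟩
  obtain ⟨o, ho, hou⟩ := T.root
  -- every inner vertex is an end
  have hslot : ∀ j r, (E1 (z j r.1).1 ∧ E3 (y r).1) ∨ (E3 (z j r.1).1 ∧ E1 (y r).1) :=
    fun j r => hedge _ _ ((hhom j).2 r)
  have hpar : ∀ j i i', T.par i = some i' →
      (E1 (z j i).1 ∧ E3 (z j i').1) ∨ (E3 (z j i).1 ∧ E1 (z j i').1) :=
    fun j i i' h => hedge _ _ ((hhom j).1 i i' h)
  have hEy : ∀ r, E1 (y r).1 ∨ E3 (y r).1 := by
    intro r
    rcases hslot ⟨0, hj0⟩ r with h | h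
    · exact Or.inr h.2
    · exact Or.inl h.2
  have hEo : ∀ j, ∀ n i, T.rk i = n → (E1 (z j i).1 ∨ E3 (z j i).1) →
      (E1 (z j o).1 ∨ E3 (z j o).1) := by
    intro j n
    induction n using Nat.strong_induction_on with
    | _ n ih =>
      intro i hi hE
      cases hp : T.par i with
      | none =>
        rw [hou i hp] at hE
        exact hE
      | some i' =>
        refine ih (T.rk i') (hi ▸ T.lt i i' hp) i' rfl ?_
        rcases hpar j i i' hp with h | h
        · exact Or.inr h.2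
        · exact Or.inl h.2
  have hEz : ∀ j i, E1 (z j i).1 ∨ E3 (z j i).1 := by
    intro j i
    cases hp : T.par i with
    | none =>
      rw [hou i hp]
      refine hEo j _ r0.1 rfl ?_
      rcases hslot j r0 with h | h
      · exact Or.inl h.1
      · exact Or.inr h.1
    | some i' =>
      rcases hpar j i i' hp with h | h
      · exact Or.inl h.1
      · exact Or.inr h.1
  -- the class of the hubs
  obtain ⟨s0, hs0⟩ : ∃ s0 : Bool, ∀ j, (E1 (z j r0.1).1 ↔ hub r0.1 = s0) := by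
    by_cases h : E3 (y r0).1
    · refine ⟨hub r0.1, fun j => ⟨fun _ => rfl, fun _ => ?_⟩⟩
      rcases hslot j r0 with h' | h'
      · exact h'.1
      · exact absurd h (fun h => hnot _ h'.2 h)
    · refine ⟨!hub r0.1, fun j => ⟨fun h1 => ?_, fun h1 => ?_⟩⟩
      · rcases hslot j r0 with h' | h'
        · exact absurd h'.2 h
        · exact absurd h1 (fun h1 => hnot _ h1 h'.1)
      · exfalso
        cases hh : hub r0.1 <;> rw [hh] at h1 <;> exact absurd h1 (by decide)
  have hstep : ∀ j i i', T.par i = some i' →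
      ((E1 (z j i).1 ↔ hub i = s0) ↔ (E1 (z j i').1 ↔ hub i' = s0)) := by
    intro j i i' hp
    have hne := hhub i i' hp
    have hb : hub i = s0 ↔ ¬ hub i' = s0 := bool_flip _ _ _ hne
    rcases hpar j i i' hp with ⟨a, b⟩ | ⟨a, b⟩
    · have c : ¬ E1 (z j i').1 := fun h => hnot _ h b
      rw [hb]
      exact prop_a _ _ _ a c
    · have c : ¬ E1 (z j i).1 := fun h => hnot _ h a
      rw [hb]
      exact prop_b _ _ _ b c
  have hroot : ∀ j n i, T.rk i = n →
      ((E1 (z j i).1 ↔ hub i = s0) ↔ (E1 (z j o).1 ↔ hub o = s0)) := by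
    intro j n
    induction n using Nat.strong_induction_on with
    | _ n ih =>
      intro i hi
      cases hp : T.par i with
      | none => rw [hou i hp]
      | some i' =>
        rw [hstep j i i' hp]
        exact ih (T.rk i') (hi ▸ T.lt i i' hp) i' rfl
  have hcls : ∀ j i, (E1 (z j i).1 ↔ hub i = s0) := by
    intro j i
    rw [hroot j _ i rfl, ← hroot j _ r0.1 rfl]
    exact hs0 j
  -- middles
  have hmid : ∀ (j : Fin k) (e : T.Ed), ∃ c : V, (α (p c) = 2 ∧ β (q c) = 2) ∧
      p c = T.col lam 0 (z j) y e ∧ q c = T.col lam 1 (z j) y e ∧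
      (∀ e', e = .inl e' → A (z j e'.1.1).1 c ∧ A (z j e'.1.2).1 c) ∧
      (∀ r, e = .inr r → A (z j r.1).1 c ∧ A (y r).1 c) := by
    have main : ∀ u w, A' u w → ∃ c : V, (α (p c) = 2 ∧ β (q c) = 2) ∧
        p c = lam 0 u w ∧ q c = lam 1 u w ∧ A u.1 c ∧ A w.1 c := by
      intro u w h
      obtain ⟨v, hv, h1, h2, h3⟩ := hA' u w h
      have hh := hw v hv
      refine ⟨v 2, ⟨(hcl v hv 2).1, (hcl v hv 2).2⟩, h2.symm, h3.symm, ?_⟩
      rcases h1 with ⟨a, b⟩ | ⟨a, b⟩
      · rw [a, b]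
        exact ⟨hh.2.1, hG.symm _ _ hh.2.2.1⟩
      · rw [a, b]
        exact ⟨hG.symm _ _ hh.2.2.1, hh.2.1⟩
    intro j e
    rcases e with e | r
    · obtain ⟨c, h1, h2, h3, h4, h5⟩ := main _ _ ((hhom j).1 e.1.1 e.1.2 e.2)
      refine ⟨c, h1, h2, h3, ?_, ?_⟩
      · intro e' he'
        simp only [Sum.inl.injEq] at he'
        subst he'
        exact ⟨h4, h5⟩
      · intro r hr
        exact absurd hr (by simp)
    · obtain ⟨c, h1, h2, h3, h4, h5⟩ := main _ _ ((hhom j).2 r)
      refine ⟨c, h1, h2, h3, ?_, ?_⟩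
      · intro e' he'
        exact absurd he' (by simp)
      · intro r' hr'
        simp only [Sum.inr.injEq] at hr'
        subst hr'
        exact ⟨h4, h5⟩
  choose c hc1 hc2 hc3 hc4 hc5 using hmid
  have hv00 : α (p (v0 0)) = 0 ∧ β (q (v0 0)) = 0 := hcl v0 hv0F 0
  have hv04 : α (p (v0 4)) = 4 ∧ β (q (v0 4)) = 4 := hcl v0 hv0F 4
  refine ⟨fun j i => (z j i).1, fun r => (y r).1, c, fun b => if b = s0 then v0 0 else v0 4,
    fun j e => hc4 j _ e rfl, fun j r => hc5 j _ r rfl, ?_, ?_⟩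
  · intro j i
    by_cases h : hub i = s0
    · simp only [h, if_true]
      exact (p1 _ ((hcls j i).2 h)).2.2
    · simp only [h, if_false]
      have h3 : E3 (z j i).1 := by
        rcases hEz j i with h1 | h3
        · exact absurd ((hcls j i).1 h1) h
        · exact h3
      exact (p3 _ h3).2.2
  · -- the item function for the ends
    set g : (Fin k × I) ⊕ T.R → V := Sum.elim (fun a => (z a.1 a.2).1) (fun r => (y r).1) with hg
    have hgE : ∀ s, E1 (g s) ∨ E3 (g s) := by
      rintro (⟨j, i⟩ | r)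
      · exact hEz j i
      · exact hEy r
    have hginj : ∀ s t, g s = g t → s = t := by
      rintro (⟨j, i⟩ | r) (⟨j', i'⟩ | r') h
      · have h' : z j i = z j' i' := Subtype.ext h
        obtain ⟨h1, h2⟩ := hzinj j i j' i' h'
        rw [h1, h2]
      · exact absurd (Subtype.ext h : z j i = y r') (hzy j i r')
      · exact absurd (Subtype.ext h.symm : z j' i' = y r) (hzy j' i' r)
      · have h' : y r = y r' := Subtype.ext h
        rw [hyinj h']
    have hmcl : ∀ b : Bool, (α (p (if b = s0 then v0 0 else v0 4)) = 0 ∧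
        β (q (if b = s0 then v0 0 else v0 4)) = 0 ∧ b = s0) ∨
        (α (p (if b = s0 then v0 0 else v0 4)) = 4 ∧
        β (q (if b = s0 then v0 0 else v0 4)) = 4 ∧ b ≠ s0) := by
      intro b
      by_cases h : b = s0
      · left
        simp only [h, if_true]
        exact ⟨hv00.1, hv00.2, trivial⟩
      · right
        simp only [h, if_false]
        exact ⟨hv04.1, hv04.2, h⟩
    have key1 : ∀ s t, (p (g s) = p (g t) ∨ q (g s) = q (g t)) → s = t := by
      intro s t h
      rcases hgE s with h1 | h1 <;> rcases hgE t with h2 | h2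
      · apply hginj
        rcases h with h | h
        · exact hG.inj1 _ _ _ (p1 _ h1).2.2 (p1 _ h2).2.2 h
        · exact hG.inj2 _ _ _ (p1 _ h1).2.2 (p1 _ h2).2.2 h
      · exfalso
        rcases h with h | h
        · have := (p1 _ h1).1
          rw [h, (p3 _ h2).1] at this
          exact absurd this (by decide)
        · have := (p1 _ h1).2.1
          rw [h, (p3 _ h2).2.1] at this
          exact absurd this (by decide)
      · exfalso
        rcases h with h | h
        · have := (p3 _ h1).1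
          rw [h, (p1 _ h2).1] at this
          exact absurd this (by decide)
        · have := (p3 _ h1).2.1
          rw [h, (p1 _ h2).2.1] at this
          exact absurd this (by decide)
      · apply hginj
        rcases h with h | h
        · exact hG.inj1 _ _ _ (p3 _ h1).2.2 (p3 _ h2).2.2 h
        · exact hG.inj2 _ _ _ (p3 _ h1).2.2 (p3 _ h2).2.2 h
    -- classes of the ends and of the other items
    have hgcl : ∀ s, (α (p (g s)) = 1 ∧ β (q (g s)) = 1) ∨ (α (p (g s)) = 3 ∧ β (q (g s)) = 3) := by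
      intro s
      rcases hgE s with h | h
      · exact Or.inl ⟨(p1 _ h).1, (p1 _ h).2.1⟩
      · exact Or.inr ⟨(p3 _ h).1, (p3 _ h).2.1⟩
    -- if the classes differ there is no collision
    have hdiff : ∀ (u w : V) (a b : Fin 5), a ≠ b → (α (p u) = a ∧ β (q u) = a) →
        (α (p w) = b ∧ β (q w) = b) → ¬ Co p q u w := by
      intro u w a b hab h1 h2 h
      rcases h with h | h
      · exact hab (by rw [← h1.1, ← h2.1, h])
      · exact hab (by rw [← h1.2, ← h2.2, h])
    have hCs : ∀ u w, Co p q u w → Co p q w u := by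
      intro u w h
      rcases h with h | h
      · exact Or.inl h.symm
      · exact Or.inr h.symm
    have gm : ∀ s (a : Fin k × T.Ed), ¬ Co p q (g s) (c a.1 a.2) := by
      intro s a
      rcases hgcl s with h | h
      · exact hdiff _ _ 1 2 (by decide) h (hc1 a.1 a.2)
      · exact hdiff _ _ 3 2 (by decide) h (hc1 a.1 a.2)
    have gl : ∀ s (b : Bool), ¬ Co p q (g s) (if b = s0 then v0 0 else v0 4) := by
      intro s b
      rcases hgcl s with h | h <;> rcases hmcl b with h' | h'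
      · exact hdiff _ _ 1 0 (by decide) h ⟨h'.1, h'.2.1⟩
      · exact hdiff _ _ 1 4 (by decide) h ⟨h'.1, h'.2.1⟩
      · exact hdiff _ _ 3 0 (by decide) h ⟨h'.1, h'.2.1⟩
      · exact hdiff _ _ 3 4 (by decide) h ⟨h'.1, h'.2.1⟩
    have ml : ∀ (a : Fin k × T.Ed) (b : Bool), ¬ Co p q (c a.1 a.2) (if b = s0 then v0 0 else v0 4) := by
      intro a b
      rcases hmcl b with h' | h'
      · exact hdiff _ _ 2 0 (by decide) (hc1 a.1 a.2) ⟨h'.1, h'.2.1⟩
      · exact hdiff _ _ 2 4 (by decide) (hc1 a.1 a.2) ⟨h'.1, h'.2.1⟩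
    rintro (s | (a | b)) (t | (a' | b')) hst
    · intro h
      exact hst (congrArg _ (key1 s t h))
    · exact gm s a'
    · exact gl s b'
    · exact fun h => gm t a (hCs _ _ h)
    · rintro (h | h)
      · have h' : T.col lam 0 (z a.1) y a.2 = T.col lam 0 (z a'.1) y a'.2 := by
          rw [← hc2 a.1 a.2, ← hc2 a'.1 a'.2]
          exact h
        obtain ⟨e1, e2⟩ := hcol 0 a.1 a.2 a'.1 a'.2 h'
        apply hst
        rw [Prod.ext e1 e2]
      · have h' : T.col lam 1 (z a.1) y a.2 = T.col lam 1 (z a'.1) y a'.2 := by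
          rw [← hc3 a.1 a.2, ← hc3 a'.1 a'.2]
          exact h
        obtain ⟨e1, e2⟩ := hcol 1 a.1 a.2 a'.1 a'.2 h'
        apply hst
        rw [Prod.ext e1 e2]
    · exact ml a b'
    · exact fun h => gl t b (hCs _ _ h)
    · exact fun h => ml a' b (hCs _ _ h)
    · rcases hmcl b with h' | h' <;> rcases hmcl b' with h'' | h''
      · exact absurd (by rw [h'.2.2, h''.2.2]) hst
      · exact hdiff _ _ 0 4 (by decide) ⟨h'.1, h'.2.1⟩ ⟨h''.1, h''.2.1⟩
      · exact hdiff _ _ 4 0 (by decide) ⟨h'.1, h'.2.1⟩ ⟨h''.1, h''.2.1⟩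
      · refine absurd ?_ hst
        rw [bool_same b b' s0 h'.2.2 h''.2.2]

end Pool.Agent.helper41.IV
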